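import Mathlib

set_option autoImplicit false

open Set Topology

namespace Pool.Agent.Results.MP_e848aa_gt.AlephOne

/-- every open cover has a point-countable open refinement -/
def MetaLindelof (X : Type*) [TopologicalSpace X] : Prop :=
  ∀ 𝒰 : Set (Set X), (∀ U ∈ 𝒰, IsOpen U) → ⋃₀ 𝒰 = univ →
    ∃ 𝒱 : Set (Set X), (∀ V ∈ 𝒱, IsOpen V) ∧ ⋃₀ 𝒱 = univ ∧ (∀ V ∈ 𝒱, ∃ U ∈ 𝒰, V ⊆ U) ∧
      ∀ x, {V ∈ 𝒱 | x ∈ V}.Countable

/-- A closed continuous image of a meta-Lindelof space: covers indexed by a well-ordered set like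
`ω₁` have point-countable open shrinkings. -/
theorem result (X Y : Type*) [TopologicalSpace X] [TopologicalSpace Y] (hX : MetaLindelof X)
    (f : X → Y) (hf : Continuous f) (hc : IsClosedMap f) (hs : Function.Surjective f)
    (ι : Type*) [LinearOrder ι] [WellFoundedLT ι] (hseg : ∀ b : ι, (Iio b).Countable)
    (hbdd : ∀ S : Set ι, S.Countable → ∃ b, ∀ i ∈ S, i < b)
    (U : ι → Set Y) (hU : ∀ i, IsOpen (U i)) (hcov : ⋃ i, U i = univ) :
    ∃ W : ι → Set Y, (∀ i, IsOpen (W i)) ∧ (∀ i, W i ⊆ U i) ∧ ⋃ i, W i = univ ∧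
      ∀ y, {i | y ∈ W i}.Countable := by
  classical
  obtain ⟨𝒱, hVo, hVc, hVr, hVp⟩ := hX (range fun i => f ⁻¹' U i)
    (by rintro _ ⟨i, rfl⟩; exact (hU i).preimage hf)
    (by
      rw [sUnion_range, ← preimage_iUnion, hcov, preimage_univ])
  have hch : ∀ V : 𝒱, ∃ i, (V : Set X) ⊆ f ⁻¹' U i := by
    rintro ⟨V, hV⟩
    obtain ⟨_, ⟨i, rfl⟩, h⟩ := hVr V hV
    exact ⟨i, h⟩
  choose r hr using hch
  let T : ι → Set X := fun i => ⋃ V : {V : 𝒱 // i ≤ r V}, (V.1 : Set X)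
  have hTo : ∀ i, IsOpen (T i) := fun i => isOpen_iUnion fun V => hVo _ V.1.2
  refine ⟨fun i => U i \ f '' (T i)ᶜ, fun i => (hU i).sdiff (hc _ (hTo i).isClosed_compl),
    fun i => sdiff_subset, ?_, ?_⟩
  · apply eq_univ_of_forall
    intro y
    have hne : {i | y ∈ U i}.Nonempty := by
      have : y ∈ ⋃ i, U i := by rw [hcov]; trivial
      obtain ⟨i, hi⟩ := mem_iUnion.1 this
      exact ⟨i, hi⟩
    let i0 := WellFounded.min (wellFounded_lt (α := ι)) {i | y ∈ U i} hne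
    have hi0 : y ∈ U i0 := WellFounded.min_mem _ _ hne
    refine mem_iUnion.2 ⟨i0, hi0, ?_⟩
    rintro ⟨x, hx, rfl⟩
    apply hx
    have hxV : x ∈ ⋃₀ 𝒱 := by rw [hVc]; trivial
    obtain ⟨V, hV, hxV⟩ := hxV
    have h1 : f x ∈ U (r ⟨V, hV⟩) := hr ⟨V, hV⟩ hxV
    have h2 : i0 ≤ r ⟨V, hV⟩ :=
      not_lt.1 (WellFounded.not_lt_min (wellFounded_lt (α := ι)) {i | f x ∈ U i} h1)
    exact mem_iUnion.2 ⟨⟨⟨V, hV⟩, h2⟩, hxV⟩
  · intro y
    obtain ⟨x, rfl⟩ := hs y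
    have hS : {i | ∃ V : 𝒱, x ∈ (V : Set X) ∧ r V = i}.Countable := by
      have h1 : {V : 𝒱 | x ∈ (V : Set X)}.Countable := by
        have h2 := (hVp x).preimage (Subtype.val_injective (p := fun V => V ∈ 𝒱))
        refine h2.mono ?_
        intro V hV
        exact ⟨V.2, hV⟩
      refine (h1.image r).mono ?_
      rintro i ⟨V, hV, rfl⟩
      exact ⟨V, hV, rfl⟩
    obtain ⟨b, hb⟩ := hbdd _ hS
    refine (hseg b).mono ?_
    rintro i ⟨_, hi⟩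
    by_contra hib
    apply hi
    refine ⟨x, ?_, rfl⟩
    intro hx
    obtain ⟨⟨V, hV⟩, hxV⟩ := mem_iUnion.1 hx
    have h1 := hb (r V) ⟨V, hxV, rfl⟩
    exact hib (lt_of_le_of_lt hV h1)

end Pool.Agent.Results.MP_e848aa_gt.AlephOne
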