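import Mathlib

set_option autoImplicit false

namespace Pool.Agent.Results.MP_e848aa_gt.AlephOneCovers

open Set Cardinal

universe u v

/-! ## Definitions used in the statement -/

/-- `U` is an open cover of `X`. -/
def IsOpenCov {X : Type u} [TopologicalSpace X] (U : Set (Set X)) : Prop :=
  (∀ s ∈ U, IsOpen s) ∧ ⋃₀ U = Set.univ

/-- `V` is a point-countable open refinement of `U`. -/
def IsPointCountableRefinement {X : Type u} [TopologicalSpace X] (V U : Set (Set X)) : Prop :=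
  IsOpenCov V ∧ (∀ x, {s ∈ V | x ∈ s}.Countable) ∧ ∀ s ∈ V, ∃ t ∈ U, s ⊆ t

/-- A space is metalindelöf if every open cover has a point-countable open refinement. -/
def Metalindelof (X : Type u) [TopologicalSpace X] : Prop :=
  ∀ U : Set (Set X), IsOpenCov U → ∃ V, IsPointCountableRefinement V U

/-! ## Proof -/

theorem count_Iio (b : (ℵ₁ : Cardinal.{v}).ord.ToType) : (Iio b).Countable := by
  rw [← Cardinal.le_aleph0_iff_set_countable]
  exact Order.lt_succ_iff.1
    ((Cardinal.mk_Iio_toType_ord_lt b).trans_eq Cardinal.succ_aleph0.symm)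

/-- countable subsets of `ω₁` are bounded -/
theorem bounded (S : Set (ℵ₁ : Cardinal.{v}).ord.ToType) (hS : S.Countable) :
    ∃ b, ∀ a ∈ S, a < b := by
  by_contra hcon
  push Not at hcon
  have hcount : ∀ a : (ℵ₁ : Cardinal.{v}).ord.ToType, (Iic a).Countable := by
    intro a
    rw [← Iio_insert]
    exact (count_Iio a).insert a
  have h2 : (Set.univ : Set (ℵ₁ : Cardinal.{v}).ord.ToType) ⊆ ⋃ a ∈ S, Iic a := by
    intro b _
    obtain ⟨a, ha, hab⟩ := hcon b
    exact mem_biUnion ha hab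
  have h3 : (Set.univ : Set (ℵ₁ : Cardinal.{v}).ord.ToType).Countable :=
    (hS.biUnion fun a _ => hcount a).mono h2
  rw [← Cardinal.le_aleph0_iff_set_countable, Cardinal.mk_univ, Cardinal.mk_ord_toType] at h3
  exact absurd h3 (not_le.2 Cardinal.aleph0_lt_aleph_one)

variable {X : Type u} {Y : Type v} [TopologicalSpace X] [TopologicalSpace Y]

theorem main (hX : Metalindelof X) (f : X → Y) (hf : Continuous f) (hc : IsClosedMap f)
    (hs : Function.Surjective f) (U : Set (Set Y)) (hU : IsOpenCov U) (hcard : #U ≤ ℵ₁) :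
    ∃ V, IsPointCountableRefinement V U := by
  classical
  have hemb : #U ≤ #((ℵ₁ : Cardinal.{v}).ord.ToType) := by rwa [Cardinal.mk_ord_toType]
  obtain ⟨e⟩ := hemb
  obtain ⟨V, ⟨hVo, hVc⟩, hVp, hVr⟩ := hX ((fun s => f ⁻¹' s) '' U) ⟨by
    rintro _ ⟨s, hs, rfl⟩
    exact (hU.1 s hs).preimage hf, by
    rw [eq_univ_iff_forall]
    intro x
    have : f x ∈ ⋃₀ U := by rw [hU.2]; trivial
    obtain ⟨s, hs, hx⟩ := this
    exact ⟨_, ⟨s, hs, rfl⟩, hx⟩⟩
  have hidx : ∀ s : V, ∃ t : U, (s : Set X) ⊆ f ⁻¹' (t : Set Y) := by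
    rintro ⟨s, hs⟩
    obtain ⟨_, ⟨t, ht, rfl⟩, h⟩ := hVr s hs
    exact ⟨⟨t, ht⟩, h⟩
  choose ix hix using hidx
  let W : U → Set X := fun t => ⋃ s : V, ⋃ _ : ix s = t, (s : Set X)
  have hWo : ∀ t, IsOpen (W t) := fun t => isOpen_iUnion fun s => isOpen_iUnion fun _ => hVo s s.2
  have hWf : ∀ t, W t ⊆ f ⁻¹' (t : Set Y) := by
    intro t x hx
    simp only [W, mem_iUnion] at hx
    obtain ⟨s, rfl, hx⟩ := hx
    exact hix s hx
  have hWne : ∀ x, ∃ t, x ∈ W t := by
    intro x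
    have : x ∈ ⋃₀ V := by rw [hVc]; trivial
    obtain ⟨s, hs, hx⟩ := this
    exact ⟨ix ⟨s, hs⟩, mem_iUnion.2 ⟨⟨s, hs⟩, mem_iUnion.2 ⟨rfl, hx⟩⟩⟩
  have hWc : ∀ x, {t | x ∈ W t}.Countable := by
    intro x
    have h1 : ({s : V | x ∈ (s : Set X)}).Countable := by
      have := (hVp x).preimage (f := fun s : V => (s : Set X)) Subtype.val_injective
      refine this.mono fun s hs => ?_
      exact ⟨s.2, hs⟩
    refine (h1.image ix).mono ?_
    intro t ht
    simp only [W, mem_ofPred_eq, mem_iUnion] at ht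
    obtain ⟨s, h, hx⟩ := ht
    exact ⟨s, hx, h⟩
  let C : (ℵ₁ : Cardinal.{v}).ord.ToType → Set X := fun a => {x | ∀ t, x ∈ W t → e t < a}
  have hCc : ∀ a, IsClosed (C a) := by
    intro a
    have : C a = (⋃ t : U, ⋃ _ : ¬ e t < a, W t)ᶜ := by
      ext x
      simp only [C, mem_ofPred_eq, mem_compl_iff, mem_iUnion, not_exists]
      constructor
      · intro h t ht hx
        exact ht (h t hx)
      · intro h t hx
        by_contra ht
        exact h t ht hx
    rw [this, isClosed_compl_iff]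
    exact isOpen_iUnion fun t => isOpen_iUnion fun _ => hWo t
  have hCm : ∀ a b, a ≤ b → C a ⊆ C b := fun a b hab x hx t ht => (hx t ht).trans_le hab
  have hex : ∀ y, ∃ a, y ∈ f '' C a := by
    intro y
    obtain ⟨x, rfl⟩ := hs y
    obtain ⟨b, hb⟩ := bounded (e '' {t | x ∈ W t}) ((hWc x).image e)
    exact ⟨b, x, fun t ht => hb _ ⟨t, ht, rfl⟩, rfl⟩
  refine ⟨range fun t : U => (t : Set Y) \ f '' C (e t), ⟨?_, ?_⟩, ?_, ?_⟩
  · rintro _ ⟨t, rfl⟩
    exact (hU.1 t t.2).sdiff (hc _ (hCc _))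
  · rw [eq_univ_iff_forall]
    intro y
    obtain ⟨a, ha, hmin⟩ := WellFounded.has_min (wellFounded_lt (α := (ℵ₁ : Cardinal.{v}).ord.ToType))
      {a | y ∈ f '' C a} (hex y)
    obtain ⟨x, hx, rfl⟩ := ha
    obtain ⟨t, ht⟩ := hWne x
    refine ⟨_, ⟨t, rfl⟩, hWf t ht, fun h => ?_⟩
    exact hmin _ h (hx t ht)
  · intro y
    obtain ⟨b, hb⟩ := hex y
    have h1 : {t : U | e t < b}.Countable :=
      (count_Iio b).preimage (f := e) e.injective
    refine (h1.image fun t : U => (t : Set Y) \ f '' C (e t)).mono ?_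
    rintro _ ⟨⟨t, rfl⟩, hy⟩
    refine ⟨t, ?_, rfl⟩
    by_contra h
    exact hy.2 (image_mono (hCm b (e t) (not_lt.1 h)) hb)
  · rintro _ ⟨t, rfl⟩
    exact ⟨t, t.2, sdiff_subset⟩

/-- If `X` is metalindelöf and `f : X → Y` is a closed mapping (a continuous surjection that sends
closed sets to closed sets), then every open cover of `Y` having at most `ℵ₁` members has a
point-countable open refinement. In particular `Y` is metalindelöf provided that every open cover
of `Y` has a subcover with at most `ℵ₁` members. -/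
theorem result {X : Type u} {Y : Type v} [TopologicalSpace X] [TopologicalSpace Y]
    (hX : Metalindelof X) (f : X → Y) (hf : Continuous f) (hc : IsClosedMap f)
    (hs : Function.Surjective f) :
    (∀ U : Set (Set Y), IsOpenCov U → #U ≤ ℵ₁ → ∃ V, IsPointCountableRefinement V U) ∧
    ((∀ U : Set (Set Y), IsOpenCov U → ∃ U' ⊆ U, IsOpenCov U' ∧ #U' ≤ ℵ₁) →
      Metalindelof Y) := by
  refine ⟨fun U hU hcard => main hX f hf hc hs U hU hcard, fun h U hU => ?_⟩
  obtain ⟨U', hsub, hU', hcard⟩ := h U hU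
  obtain ⟨V, hV1, hV2, hV3⟩ := main hX f hf hc hs U' hU' hcard
  refine ⟨V, hV1, hV2, fun s hs => ?_⟩
  obtain ⟨t, ht, hst⟩ := hV3 s hs
  exact ⟨t, hsub ht, hst⟩

end Pool.Agent.Results.MP_e848aa_gt.AlephOneCovers
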